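import Pool.Agent.Y69.TK.KDef

/-!
# The `SK₁` part of `colim K₁(R[H])`

The groups `K₁`, `ColimK1` and the assembly map are those of `Pool.Agent.Y69.WhDef` and
`Pool.Agent.Y69.TK.KDef`.
-/

namespace Pool.Agent.E14.SK

open Pool.Agent.Y69.FJ Pool.Agent.Y69.FJK

noncomputable section

/-- The subgroup of `colim K₁(R[H])` generated by the images of the groups `SK₁(R[C])` of the finite
cyclic groups `C`: by the elements `[H, K₁(R[φ])([M])]`, where `φ : C → H` is an injective
homomorphism of a finite cyclic group to a finite subgroup `H` of `G` and `M` is an invertible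
matrix over `R[C]` of determinant one. -/
def SKPart (R G : Type) [CommRing R] [Group G] : AddSubgroup (ColimK1 R G) :=
  AddSubgroup.closure {z | ∃ (C : Type) (_ : CommGroup C) (_ : Finite C) (_ : IsCyclic C)
    (H : FinSub G) (φ : C →* H.1) (_ : Function.Injective φ) (n : ℕ)
    (M : (Matrix (Fin n) (Fin n) (MonoidAlgebra R C))ˣ),
    (M : Matrix (Fin n) (Fin n) (MonoidAlgebra R C)).det = 1 ∧
      z = QuotientAddGroup.mk (sym H (GK1.map φ (K1.mk M)))}

end

end Pool.Agent.E14.SK
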